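import Pool.Agent.H34.CS.Defs

set_option autoImplicit false

namespace Pool.Agent.H34.CS

open Finset Pool.Agent.H34.CQ

/-- exchange of `a s` and `b s` -/
theorem exists_swap {m : ℕ} (a b : ℕ → ℕ) (ha : ∀ s < m, ∀ s' < m, a s = a s' → s = s')
    (hb : ∀ s < m, ∀ s' < m, b s = b s' → s = s') (hab : ∀ s < m, ∀ s' < m, a s ≠ b s') :
    ∃ ρ : ℕ → ℕ, (∀ s < m, ρ (a s) = b s ∧ ρ (b s) = a s) ∧
      ∀ v, (∀ s < m, v ≠ a s ∧ v ≠ b s) → ρ v = v := by
  classical
  let ρ : ℕ → ℕ := fun v => if h : ∃ s, s < m ∧ a s = v then b h.choose else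
    if h : ∃ s, s < m ∧ b s = v then a h.choose else v
  refine ⟨ρ, fun s hs => ⟨?_, ?_⟩, fun v hv => ?_⟩
  · have h : ∃ s', s' < m ∧ a s' = a s := ⟨s, hs, rfl⟩
    have e : ρ (a s) = b h.choose := dif_pos h
    rw [e]
    congr 1
    exact ha _ h.choose_spec.1 _ hs h.choose_spec.2
  · have h1 : ¬ ∃ s', s' < m ∧ a s' = b s := by
      rintro ⟨s', hs', h⟩
      exact hab s' hs' s hs h
    have h : ∃ s', s' < m ∧ b s' = b s := ⟨s, hs, rfl⟩
    have e : ρ (b s) = a h.choose := by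
      show (if h : ∃ s', s' < m ∧ a s' = b s then b h.choose else
        if h : ∃ s', s' < m ∧ b s' = b s then a h.choose else b s) = _
      rw [dif_neg h1, dif_pos h]
    rw [e]
    congr 1
    exact hb _ h.choose_spec.1 _ hs h.choose_spec.2
  · have h1 : ¬ ∃ s', s' < m ∧ a s' = v := by
      rintro ⟨s', hs', h⟩
      exact (hv s' hs').1 h.symm
    have h2 : ¬ ∃ s', s' < m ∧ b s' = v := by
      rintro ⟨s', hs', h⟩
      exact (hv s' hs').2 h.symm
    show (if h : ∃ s', s' < m ∧ a s' = v then b h.choose else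
      if h : ∃ s', s' < m ∧ b s' = v then a h.choose else v) = _
    rw [dif_neg h1, dif_neg h2]

theorem card_place {n : ℕ} {π : ℕ → ℕ} (h : Circ n π) (Y : Finset ℕ) [DecidablePred (· ∈ Y)] :
    ((Icc 1 n).filter (fun i => π i ∈ Y)).card ≤ Y.card := by
  apply card_le_card_of_injOn π
  · intro i hi
    exact (mem_filter.1 (mem_coe.1 hi)).2
  · intro i hi j hj hij
    have h1 := mem_Icc.1 (mem_filter.1 (mem_coe.1 hi)).1
    have h2 := mem_Icc.1 (mem_filter.1 (mem_coe.1 hj)).1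
    exact h.bij.injOn ⟨h1.1, h1.2⟩ ⟨h2.1, h2.2⟩ hij

theorem card_place' {n : ℕ} {π : ℕ → ℕ} (h : Circ n π) (Y : Finset ℕ) [DecidablePred (· ∈ Y)] :
    ((Icc 1 n).filter (fun i => π (i + 1) ∈ Y)).card ≤ Y.card := by
  apply card_le_card_of_injOn (fun i => π (i + 1))
  · intro i hi
    exact (mem_filter.1 (mem_coe.1 hi)).2
  · intro i hi j hj hij
    exact succ_inj h i (mem_filter.1 (mem_coe.1 hi)).1 j (mem_filter.1 (mem_coe.1 hj)).1 hij

/-- many consecutive places with multiples of `M` outside `X` -/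
theorem window (M n k D0 : ℕ) (X : Finset ℕ) (hX : X.card ≤ 3 * k)
    (hsize : (D0 + 6 * k + 1) * (4 * k + 1) + 3 * k < n / M)
    (π0 : ℕ → ℕ) (h0 : Circ n π0) (hD0 : cnt n (Mixed M) π0 ≤ D0) :
    ∃ i0, 1 ≤ i0 ∧ i0 + 4 * k ≤ n ∧ ∀ t, t ≤ 4 * k → M ∣ π0 (i0 + t) ∧ π0 (i0 + t) ∉ X := by
  classical
  by_contra hcon
  push Not at hcon
  have hD : ((Icc 1 n).filter (fun i => Mixed M (π0 i) (π0 (i + 1)))).card ≤ D0 := by
    have e : cnt n (Mixed M) π0 =
        ((Icc 1 n).filter (fun i => Mixed M (π0 i) (π0 (i + 1)))).card := by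
      unfold cnt
      congr
    rw [← e]
    exact hD0
  set A := (Icc 1 n).filter (fun i => M ∣ π0 i ∧ π0 i ∉ X) with hA
  set E := (Icc 1 n).filter (fun e => Mixed M (π0 e) (π0 (e + 1))) ∪
    (Icc 1 n).filter (fun e => π0 (e + 1) ∈ X) with hE
  have hEc : E.card ≤ D0 + 3 * k := by
    have h1 := card_union_le ((Icc 1 n).filter (fun e => Mixed M (π0 e) (π0 (e + 1))))
      ((Icc 1 n).filter (fun e => π0 (e + 1) ∈ X))
    have h2 := card_place' h0 X
    rw [← hE] at h1
    omega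
  have hAc : n / M ≤ A.card + 3 * k := by
    have h1 : ((Ioc 0 n).filter (fun v => M ∣ v)).card = n / M := Nat.Ioc_filter_dvd_card_eq_div n M
    have h2 : (Ioc 0 n).filter (fun v => M ∣ v) ⊆ A.image π0 ∪ X := by
      intro v hv
      obtain ⟨hv1, hv2⟩ := mem_filter.1 hv
      rw [mem_Ioc] at hv1
      rw [mem_union]
      by_cases hvX : v ∈ X
      · exact Or.inr hvX
      · left
        obtain ⟨i, hi, rfl⟩ := h0.bij.surjOn (show v ∈ Set.Icc 1 n from ⟨by omega, hv1.2⟩)
        exact mem_image_of_mem _ (mem_filter.2 ⟨mem_Icc.2 ⟨hi.1, hi.2⟩, hv2, hvX⟩)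
    have h3 := (card_le_card h2).trans (card_union_le _ _)
    have h4 : (A.image π0).card ≤ A.card := card_image_le
    omega
  have hsub : A ⊆ Ioc (n - 4 * k) n ∪ E.biUnion (fun e => Icc (e + 1 - 4 * k) e) := by
    intro i hi
    obtain ⟨hi1, hi2⟩ := mem_filter.1 hi
    rw [mem_Icc] at hi1
    rw [mem_union]
    by_cases hle : i ≤ n - 4 * k
    · right
      by_cases h4k : i + 4 * k ≤ n
      · have hex : ∃ t, t ≤ 4 * k ∧ ¬ (M ∣ π0 (i + t) ∧ π0 (i + t) ∉ X) := by
          obtain ⟨t, ht, h⟩ := hcon i hi1.1 h4k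
          exact ⟨t, ht, fun h' => h'.2 (h h'.1)⟩
        have hspec := Nat.find_spec hex
        set t := Nat.find hex with ht
        have ht0 : t ≠ 0 := by
          intro h
          rw [h] at hspec
          exact hspec.2 (by simpa using hi2)
        have hmin := Nat.find_min hex (m := t - 1) (by omega)
        have hprev : M ∣ π0 (i + (t - 1)) ∧ π0 (i + (t - 1)) ∉ X := by
          by_contra h
          exact hmin ⟨by omega, h⟩
        rw [mem_biUnion]
        refine ⟨i + (t - 1), ?_, ?_⟩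
        · rw [hE, mem_union, mem_filter, mem_filter, mem_Icc]
          have e1 : i + (t - 1) + 1 = i + t := by omega
          rw [e1]
          by_cases hx : π0 (i + t) ∈ X
          · exact Or.inr ⟨⟨by omega, by omega⟩, hx⟩
          · refine Or.inl ⟨⟨by omega, by omega⟩, ?_⟩
            intro hiff
            exact hspec.2 ⟨hiff.1 hprev.1, hx⟩
        · rw [mem_Icc]
          omega
      · exfalso
        omega
    · left
      rw [mem_Ioc]
      omega
  have h1 := (card_le_card hsub).trans (card_union_le _ _)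
  have h2 : (E.biUnion (fun e => Icc (e + 1 - 4 * k) e)).card ≤ E.card * (4 * k) := by
    apply card_biUnion_le_card_mul
    intro e _
    rw [Nat.card_Icc]
    omega
  have h3 : (Ioc (n - 4 * k) n).card ≤ 4 * k := by
    rw [Nat.card_Ioc]
    omega
  have h4 : E.card * (4 * k) ≤ (D0 + 3 * k) * (4 * k) := Nat.mul_le_mul_right _ hEc
  have h5 : n / M ≤ 4 * k + (D0 + 3 * k) * (4 * k) + 3 * k := by omega
  have h6 : 4 * k + (D0 + 3 * k) * (4 * k) ≤ (D0 + 6 * k + 1) * (4 * k + 1) := by nlinarith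
  omega

theorem prep (M n k D0 : ℕ) (hM : 0 < M) (τ g : ℕ → ℕ)
    (hg1 : ∀ j < 2 * k, k < g j ∧ g j ≤ n)
    (hg2 : ∀ i < 2 * k, ∀ j < 2 * k, g i = g j → i = j)
    (hsize : (D0 + 6 * k + 1) * (4 * k + 1) + 3 * k < n / M)
    (π0 : ℕ → ℕ) (h0 : Circ n π0)
    (hT0 : ∀ i ∈ Set.Icc 1 n, Allowed M τ (π0 i) (π0 (i + 1)))
    (hD0 : cnt n (Mixed M) π0 ≤ D0) :
    ∃ π : ℕ → ℕ, Circ n π ∧ (∀ i ∈ Set.Icc 1 n, Tp M τ k g (π i) (π (i + 1))) ∧
      cnt n (Mixp M k g) π ≤ D0 + 12 * k := by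
  classical
  -- the values to be placed
  let val : ℕ → ℕ := fun s => if s % 3 = 0 then g (2 * (s / 3)) else
    if s % 3 = 1 then s / 3 + 1 else g (2 * (s / 3) + 1)
  have v0 : ∀ s, s % 3 = 0 → val s = g (2 * (s / 3)) := fun s h => if_pos h
  have v1 : ∀ s, s % 3 = 1 → val s = s / 3 + 1 := by
    intro s h
    show (if s % 3 = 0 then g (2 * (s / 3)) else if s % 3 = 1 then s / 3 + 1 else
      g (2 * (s / 3) + 1)) = _
    rw [if_neg (by omega), if_pos h]
  have v2 : ∀ s, s % 3 = 2 → val s = g (2 * (s / 3) + 1) := by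
    intro s h
    show (if s % 3 = 0 then g (2 * (s / 3)) else if s % 3 = 1 then s / 3 + 1 else
      g (2 * (s / 3) + 1)) = _
    rw [if_neg (by omega), if_neg (by omega)]
  have t3 : ∀ s : ℕ, s % 3 = 0 ∨ s % 3 = 1 ∨ s % 3 = 2 := fun s => by omega
  have hdiv : n / M ≤ n := Nat.div_le_self n M
  have hk4 : 4 * k + 1 ≤ (D0 + 6 * k + 1) * (4 * k + 1) := Nat.le_mul_of_pos_left _ (by omega)
  have hvn : ∀ s < 3 * k, 1 ≤ val s ∧ val s ≤ n := by
    intro s hs
    rcases t3 s with h | h | h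
    · rw [v0 s h]
      have := hg1 (2 * (s / 3)) (by omega)
      omega
    · rw [v1 s h]
      omega
    · rw [v2 s h]
      have := hg1 (2 * (s / 3) + 1) (by omega)
      omega
  have hvinj : ∀ s < 3 * k, ∀ s' < 3 * k, val s = val s' → s = s' := by
    intro s hs s' hs' h
    rcases t3 s with e | e | e <;> rcases t3 s' with e' | e' | e'
    · rw [v0 s e, v0 s' e'] at h
      have := hg2 _ (by omega) _ (by omega) h
      omega
    · rw [v0 s e, v1 s' e'] at h
      have := hg1 (2 * (s / 3)) (by omega)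
      omega
    · rw [v0 s e, v2 s' e'] at h
      have := hg2 _ (by omega) _ (by omega) h
      omega
    · rw [v1 s e, v0 s' e'] at h
      have := hg1 (2 * (s' / 3)) (by omega)
      omega
    · rw [v1 s e, v1 s' e'] at h
      omega
    · rw [v1 s e, v2 s' e'] at h
      have := hg1 (2 * (s' / 3) + 1) (by omega)
      omega
    · rw [v2 s e, v0 s' e'] at h
      have := hg2 _ (by omega) _ (by omega) h
      omega
    · rw [v2 s e, v1 s' e'] at h
      have := hg1 (2 * (s / 3) + 1) (by omega)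
      omega
    · rw [v2 s e, v2 s' e'] at h
      have := hg2 _ (by omega) _ (by omega) h
      omega
  set X := (range (3 * k)).image val with hX
  have hXc : X.card ≤ 3 * k := by
    rw [hX]
    exact card_image_le.trans (by rw [card_range])
  have hXm : ∀ s < 3 * k, val s ∈ X := fun s hs => mem_image_of_mem _ (mem_range.2 hs)
  have hXsmall : ∀ v, 1 ≤ v → v ≤ k → v ∈ X := by
    intro v h1 h2
    have := hXm (3 * (v - 1) + 1) (by omega)
    rw [v1 _ (by omega)] at this
    have e : (3 * (v - 1) + 1) / 3 + 1 = v := by omega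
    rwa [e] at this
  obtain ⟨i0, hi1, hi2, hwin⟩ := window M n k D0 X hXc hsize π0 h0 hD0
  -- the places
  let pl : ℕ → ℕ := fun s => i0 + (4 * (s / 3) + s % 3 + 1)
  have hpl : ∀ s, pl s = i0 + (4 * (s / 3) + s % 3 + 1) := fun s => rfl
  have hpl1 : ∀ s < 3 * k, i0 < pl s ∧ pl s < i0 + 4 * k ∧ pl s ∈ Set.Icc 1 n := by
    intro s hs
    rw [hpl]
    refine ⟨by omega, by omega, by omega, by omega⟩
  have hplinj : ∀ s < 3 * k, ∀ s' < 3 * k, pl s = pl s' → s = s' := by
    intro s hs s' hs' h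
    rw [hpl, hpl] at h
    omega
  have hplJ : ∀ s < 3 * k, M ∣ π0 (pl s) ∧ π0 (pl s) ∉ X := by
    intro s hs
    rw [hpl]
    exact hwin _ (by omega)
  obtain ⟨ρ, hρ1, hρ2⟩ := exists_swap (m := 3 * k) val (fun s => π0 (pl s)) hvinj
    (fun s hs s' hs' h => hplinj s hs s' hs'
      (h0.bij.injOn (hpl1 s hs).2.2 (hpl1 s' hs').2.2 h))
    (fun s hs s' hs' h => (hplJ s' hs').2 (by rw [← h]; exact hXm s hs))
  have hρρ : ∀ v, ρ (ρ v) = v := by
    intro v
    by_cases h1 : ∃ s, s < 3 * k ∧ v = val s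
    · obtain ⟨s, hs, rfl⟩ := h1
      rw [(hρ1 s hs).1, (hρ1 s hs).2]
    by_cases h2 : ∃ s, s < 3 * k ∧ v = π0 (pl s)
    · obtain ⟨s, hs, rfl⟩ := h2
      rw [(hρ1 s hs).2, (hρ1 s hs).1]
    have h3 := hρ2 v (fun s hs => ⟨fun h => h1 ⟨s, hs, h⟩, fun h => h2 ⟨s, hs, h⟩⟩)
    rw [h3, h3]
  have hρn : ∀ v ∈ Set.Icc 1 n, ρ v ∈ Set.Icc 1 n := by
    intro v hv
    by_cases h1 : ∃ s, s < 3 * k ∧ v = val s
    · obtain ⟨s, hs, rfl⟩ := h1
      rw [(hρ1 s hs).1]
      exact h0.bij.mapsTo (hpl1 s hs).2.2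
    by_cases h2 : ∃ s, s < 3 * k ∧ v = π0 (pl s)
    · obtain ⟨s, hs, rfl⟩ := h2
      rw [(hρ1 s hs).2]
      exact ⟨(hvn s hs).1, (hvn s hs).2⟩
    rw [hρ2 v (fun s hs => ⟨fun h => h1 ⟨s, hs, h⟩, fun h => h2 ⟨s, hs, h⟩⟩)]
    exact hv
  have hρbij : Set.BijOn ρ (Set.Icc 1 n) (Set.Icc 1 n) := by
    refine ⟨hρn, ?_, ?_⟩
    · intro x _ y _ h
      have := congrArg ρ h
      rwa [hρρ, hρρ] at this
    · intro y hy
      exact ⟨ρ y, hρn y hy, hρρ y⟩
  let π : ℕ → ℕ := fun i => ρ (π0 i)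
  have hπ : ∀ i, π i = ρ (π0 i) := fun i => rfl
  have hc : Circ n π := by
    refine ⟨hρbij.comp h0.bij, ?_⟩
    rw [hπ, hπ, h0.per]
  -- values at the special places
  have hspec : ∀ s < 3 * k, π (pl s) = val s := fun s hs => (hρ1 s hs).2
  -- places which are not special
  have hfix : ∀ i ∈ Set.Icc 1 n, (∀ s < 3 * k, i ≠ pl s) → π0 i ∉ X → π i = π0 i := by
    intro i hi hns hnX
    rw [hπ]
    apply hρ2
    intro s hs
    refine ⟨fun h => hnX (by rw [h]; exact hXm s hs), fun h => hns s hs ?_⟩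
    exact h0.bij.injOn hi (hpl1 s hs).2.2 h
  have hPr : ∀ i ∈ Set.Icc 1 n, (∀ s < 3 * k, i ≠ pl s) →
      k < π i ∧ (π i = π0 i ∨ M ∣ π i) := by
    intro i hi hns
    by_cases hx : π0 i ∈ X
    · rw [hX, mem_image] at hx
      obtain ⟨s, hs, hsv⟩ := hx
      rw [mem_range] at hs
      have e : π i = π0 (pl s) := by
        rw [hπ, ← hsv]
        exact (hρ1 s hs).1
      rw [e]
      refine ⟨?_, Or.inr (hplJ s hs).1⟩
      by_contra hk
      exact (hplJ s hs).2 (hXsmall _ (h0.bij.mapsTo (hpl1 s hs).2.2).1 (by omega))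
    · rw [hfix i hi hns hx]
      refine ⟨?_, Or.inl rfl⟩
      by_contra hk
      exact hx (hXsmall _ (h0.bij.mapsTo hi).1 (by omega))
  -- the multiples of `M` that stay in the window
  have hstay : ∀ q ≤ k, k < π (i0 + 4 * q) ∧ M ∣ π (i0 + 4 * q) := by
    intro q hq
    have hmem : i0 + 4 * q ∈ Set.Icc 1 n := ⟨by omega, by omega⟩
    have hns : ∀ s < 3 * k, i0 + 4 * q ≠ pl s := by
      intro s hs
      rw [hpl]
      omega
    have hw := hwin (4 * q) (by omega)
    have e := hfix _ hmem hns hw.2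
    exact ⟨(hPr _ hmem hns).1, by rw [e]; exact hw.1⟩
  have hT : ∀ i ∈ Set.Icc 1 n, Tp M τ k g (π i) (π (i + 1)) := by
    intro i hi
    have hi3 := hi.1
    have hi4 := hi.2
    by_cases hw : i0 ≤ i ∧ i < i0 + 4 * k
    · obtain ⟨q, r, hq, hr, rfl⟩ : ∃ q r, q < k ∧ r < 4 ∧ i = i0 + 4 * q + r :=
        ⟨(i - i0) / 4, (i - i0) % 4, by omega, by omega, by omega⟩
      have a0 : π (i0 + 4 * q + 1) = g (2 * q) := by
        have := hspec (3 * q) (by omega)
        rw [v0 _ (by omega), hpl] at this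
        have e1 : i0 + (4 * (3 * q / 3) + 3 * q % 3 + 1) = i0 + 4 * q + 1 := by omega
        have e2 : 3 * q / 3 = q := by omega
        rw [e1, e2] at this
        exact this
      have a1 : π (i0 + 4 * q + 2) = q + 1 := by
        have := hspec (3 * q + 1) (by omega)
        rw [v1 _ (by omega), hpl] at this
        have e1 : i0 + (4 * ((3 * q + 1) / 3) + (3 * q + 1) % 3 + 1) = i0 + 4 * q + 2 := by omega
        have e2 : (3 * q + 1) / 3 = q := by omega
        rw [e1, e2] at this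
        exact this
      have a2 : π (i0 + 4 * q + 3) = g (2 * q + 1) := by
        have := hspec (3 * q + 2) (by omega)
        rw [v2 _ (by omega), hpl] at this
        have e1 : i0 + (4 * ((3 * q + 2) / 3) + (3 * q + 2) % 3 + 1) = i0 + 4 * q + 3 := by omega
        have e2 : (3 * q + 2) / 3 = q := by omega
        rw [e1, e2] at this
        exact this
      have b0 := hg1 (2 * q) (by omega)
      have b1 := hg1 (2 * q + 1) (by omega)
      interval_cases r
      · obtain ⟨s1, s2⟩ := hstay q hq.le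
        right
        rw [Nat.add_zero, a0]
        exact ⟨Or.inr (Or.inl s2), s1, b0.1⟩
      · left
        have e : i0 + 4 * q + 1 + 1 = i0 + 4 * q + 2 := by omega
        rw [e, a0, a1]
        exact ⟨2 * q, by omega, Or.inr ⟨by omega, rfl⟩⟩
      · left
        have e : i0 + 4 * q + 2 + 1 = i0 + 4 * q + 3 := by omega
        rw [e, a1, a2]
        exact ⟨2 * q + 1, by omega, Or.inl ⟨by omega, rfl⟩⟩
      · right
        obtain ⟨s1, s2⟩ := hstay (q + 1) hq
        have e : i0 + 4 * q + 3 + 1 = i0 + 4 * (q + 1) := by omega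
        rw [e, a2]
        exact ⟨Or.inr (Or.inr s2), b1.1, s1⟩
    · right
      have n1 : ∀ s < 3 * k, i ≠ pl s := by
        intro s hs h
        have := hpl1 s hs
        omega
      have p1 := hPr i hi n1
      have p2 : k < π (i + 1) ∧ (π (i + 1) = π0 (i + 1) ∨ M ∣ π (i + 1)) := by
        rcases Nat.lt_or_ge i n with hlt | hge
        · apply hPr (i + 1) ⟨by omega, by omega⟩
          intro s hs h
          have := hpl1 s hs
          omega
        · have hin : i = n := by omega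
          rw [hin, hc.per, h0.per]
          apply hPr 1 ⟨le_rfl, by omega⟩
          intro s hs h
          have := hpl1 s hs
          omega
      refine ⟨?_, p1.1, p2.1⟩
      rcases p1.2 with q1 | q1
      · rcases p2.2 with q2 | q2
        · rw [q1, q2]
          exact hT0 i hi
        · exact Or.inr (Or.inr q2)
      · exact Or.inr (Or.inl q1)
  refine ⟨π, hc, hT, ?_⟩
  -- the count
  set Y := X ∪ (range (3 * k)).image (fun s => π0 (pl s)) with hY
  have hYc : Y.card ≤ 6 * k := by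
    have h1 := card_union_le X ((range (3 * k)).image (fun s => π0 (pl s)))
    have h2 : ((range (3 * k)).image (fun s => π0 (pl s))).card ≤ 3 * k :=
      card_image_le.trans (by rw [card_range])
    rw [← hY] at h1
    omega
  have hYfix : ∀ v, v ∉ Y → ρ v = v := by
    intro v hv
    apply hρ2
    intro s hs
    refine ⟨fun h => hv ?_, fun h => hv ?_⟩
    · rw [h, hY]
      exact mem_union_left _ (hXm s hs)
    · rw [h, hY]
      exact mem_union_right _ (mem_image_of_mem (fun s => π0 (pl s)) (mem_range.2 hs))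
  have hD : ((Icc 1 n).filter (fun i => Mixed M (π0 i) (π0 (i + 1)))).card ≤ D0 := by
    have e : cnt n (Mixed M) π0 =
        ((Icc 1 n).filter (fun i => Mixed M (π0 i) (π0 (i + 1)))).card := by
      unfold cnt
      congr
    rw [← e]
    exact hD0
  have e : cnt n (Mixp M k g) π =
      ((Icc 1 n).filter (fun i => Mixp M k g (π i) (π (i + 1)))).card := by
    unfold cnt
    congr
  rw [e]
  have hsub : (Icc 1 n).filter (fun i => Mixp M k g (π i) (π (i + 1))) ⊆
      ((Icc 1 n).filter (fun i => Mixed M (π0 i) (π0 (i + 1))) ∪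
        (Icc 1 n).filter (fun i => π0 i ∈ Y)) ∪ (Icc 1 n).filter (fun i => π0 (i + 1) ∈ Y) := by
    intro i hi
    obtain ⟨h1, h2⟩ := mem_filter.1 hi
    rw [mem_union, mem_union, mem_filter, mem_filter, mem_filter]
    by_cases hy1 : π0 i ∈ Y
    · exact Or.inl (Or.inr ⟨h1, hy1⟩)
    by_cases hy2 : π0 (i + 1) ∈ Y
    · exact Or.inr ⟨h1, hy2⟩
    refine Or.inl (Or.inl ⟨h1, ?_⟩)
    have f1 : π i = π0 i := hYfix _ hy1
    have f2 : π (i + 1) = π0 (i + 1) := hYfix _ hy2
    rw [f1, f2] at h2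
    rcases h2 with h2 | ⟨j, hj, ⟨h3, -⟩ | ⟨h3, -⟩⟩
    · exact h2
    · exact absurd (mem_union_left _ (hXsmall (π0 i) (by omega) (by omega))) hy1
    · exact absurd (mem_union_left _ (hXsmall (π0 (i + 1)) (by omega) (by omega))) hy2
  have c1 := (card_le_card hsub).trans (card_union_le _ _)
  have c2 := card_union_le ((Icc 1 n).filter (fun i => Mixed M (π0 i) (π0 (i + 1))))
    ((Icc 1 n).filter (fun i => π0 i ∈ Y))
  have c3 := card_place h0 Y
  have c4 := card_place' h0 Y
  omega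

end Pool.Agent.H34.CS
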