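import Pool.Agent.H34.CS.Defs

/-!
Removing all bad neighbours without cutting the prescribed pairs.
-/

set_option autoImplicit false

namespace Pool.Agent.H34.CS

open Finset Pool.Agent.H34.CQ

theorem not_prot {k : ℕ} {g : ℕ → ℕ} {x y : ℕ} (hx : k < x) (hy : k < y) : ¬ Prot k g x y := by
  rintro ⟨j, hj, ⟨h, _⟩ | ⟨h, _⟩⟩ <;> omega

theorem prot_symm {k : ℕ} {g : ℕ → ℕ} {x y : ℕ} (h : Prot k g x y) : Prot k g y x := by
  obtain ⟨j, hj, h | h⟩ := h
  · exact ⟨j, hj, Or.inr h⟩
  · exact ⟨j, hj, Or.inl h⟩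

theorem structp (M n Q D0 β k : ℕ) (g : ℕ → ℕ) (hM : 0 < M) (τ : ℕ → ℕ) (hτlt : ∀ r, τ r < M)
    (hinv : ∀ r, r < M → τ (τ r) = r) (hτ0 : τ 0 = 0) (A : ℕ → ℕ → Prop)
    (hA : ∀ x y, A x y → A y x) (hprot : ∀ x y, Prot k g x y → A x y)
    (hQ : ∀ r, r < M → ∀ F : Finset ℕ, (∀ x ∈ Icc 1 n, x % M = r → x ∈ F) → Q ≤ F.card)
    (hβ : ∀ x ∈ Icc 1 n, ∀ r, r < M → (r = τ (x % M) ∨ M ∣ x ∨ r = 0) → ∀ F : Finset ℕ,
      (∀ y ∈ F, y ∈ Icc 1 n ∧ y % M = r ∧ ¬ A x y) → F.card ≤ β)
    (hbig : D0 + 1 + 2 * β < Q)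
    (π0 : ℕ → ℕ) (h0 : Circ n π0) (hT0 : ∀ i ∈ Set.Icc 1 n, Tp M τ k g (π0 i) (π0 (i + 1)))
    (hD0 : cnt n (Mixp M k g) π0 ≤ D0) :
    ∃ π : ℕ → ℕ, Circ n π ∧ ∀ i ∈ Set.Icc 1 n,
      Tp M τ k g (π i) (π (i + 1)) ∧ A (π i) (π (i + 1)) := by
  classical
  have hmod : ∀ x, x % M < M := fun x => Nat.mod_lt _ hM
  have hτne : ∀ r, r < M → r ≠ 0 → τ r ≠ 0 := by
    intro r hr h0 h
    have := hinv r hr
    rw [h, hτ0] at this
    exact h0 this.symm
  have hdvd : ∀ x, M ∣ x ↔ x % M = 0 := fun x => Nat.dvd_iff_mod_eq_zero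
  have hTsymm' : ∀ x y, Allowed M τ x y → Allowed M τ y x := by
    rintro x y (h | h | h)
    · left
      rw [h, hinv _ (hmod x)]
    · exact Or.inr (Or.inr h)
    · exact Or.inr (Or.inl h)
  have hTsymm : ∀ x y, Tp M τ k g x y → Tp M τ k g y x := by
    rintro x y (h | ⟨h1, h2, h3⟩)
    · exact Or.inl (prot_symm h)
    · exact Or.inr ⟨hTsymm' x y h1, h3, h2⟩
  have hmixsymm : ∀ x y, Mixp M k g x y → Mixp M k g y x := by
    rintro x y (h | h)
    · exact Or.inl fun h' => h h'.symm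
    · exact Or.inr (prot_symm h)
  refine exchange n D0 (Tp M τ k g) A (Mixp M k g) hTsymm hA hmixsymm ?_ _ π0 le_rfl h0 hT0 hD0
  intro π hc hTπ hD i hi hbad
  obtain ⟨hTi, hki, hki1⟩ : Allowed M τ (π i) (π (i + 1)) ∧ k < π i ∧ k < π (i + 1) := by
    rcases hTπ i hi with h | h
    · exact absurd (hprot _ _ h) hbad
    · exact h
  -- the class of the new left neighbour
  have key : ∀ α : ℕ, α < M → (α = τ (π i % M) ∨ M ∣ π i ∨ α = 0) →
      (τ α = τ (π (i + 1) % M) ∨ M ∣ π (i + 1) ∨ τ α = 0) →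
      ∃ j ∈ Set.Icc 1 n, j ≠ i ∧ π j % M = α ∧ π (j + 1) % M = τ α ∧ A (π i) (π j) ∧
        A (π (i + 1)) (π (j + 1)) ∧ k < π j ∧ k < π (j + 1) := by
    intro α hα h1 h2
    set I := (Icc 1 n).filter (fun j => π j % M = α) with hI
    have hIQ : Q ≤ I.card := by
      have h3 := hQ α hα (I.image π) (by
        intro x hx hxα
        obtain ⟨j, hj, rfl⟩ := hc.bij.surjOn (show x ∈ Set.Icc 1 n by simpa using hx)
        exact mem_image.2 ⟨j, mem_filter.2 ⟨by simpa using hj, hxα⟩, rfl⟩)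
      exact h3.trans card_image_le
    set I1 := (Icc 1 n).filter (fun j => Mixp M k g (π j) (π (j + 1))) with hI1
    have hI1D : I1.card ≤ D0 := by
      have : cnt n (Mixp M k g) π = I1.card := by
        unfold cnt
        rw [hI1]
      omega
    set I2 := (Icc 1 n).filter (fun j => π j % M = α ∧ ¬ A (π i) (π j)) with hI2
    have hI2β : I2.card ≤ β := by
      rw [← card_image_of_injOn (f := π) (s := I2)]
      · apply hβ (π i) (by simpa using hc.bij.mapsTo hi) α hα h1
        intro y hy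
        obtain ⟨j, hj, rfl⟩ := mem_image.1 hy
        rw [hI2, mem_filter] at hj
        exact ⟨by simpa using hc.bij.mapsTo (show j ∈ Set.Icc 1 n by simpa using hj.1), hj.2⟩
      · intro a ha b hb hab
        have ha' := (mem_filter.1 (mem_coe.1 ha)).1
        have hb' := (mem_filter.1 (mem_coe.1 hb)).1
        exact hc.bij.injOn (by simpa using ha') (by simpa using hb') hab
    set I3 := (Icc 1 n).filter (fun j => π (j + 1) % M = τ α ∧ ¬ A (π (i + 1)) (π (j + 1)))
      with hI3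
    have hI3β : I3.card ≤ β := by
      rw [← card_image_of_injOn (f := fun j => π (j + 1)) (s := I3)]
      · apply hβ (π (i + 1)) (by simpa using succ_mem hc hi) (τ α) (hτlt α) h2
        intro y hy
        obtain ⟨j, hj, rfl⟩ := mem_image.1 hy
        rw [hI3, mem_filter] at hj
        exact ⟨by simpa using succ_mem hc (show j ∈ Set.Icc 1 n by simpa using hj.1), hj.2⟩
      · intro a ha b hb hab
        have ha' := (mem_filter.1 (mem_coe.1 ha)).1
        have hb' := (mem_filter.1 (mem_coe.1 hb)).1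
        exact succ_inj hc a ha' b hb' hab
    by_contra hcon
    push Not at hcon
    have hsub : I ⊆ (({i} ∪ I1) ∪ I2) ∪ I3 := by
      intro j hj
      rw [hI, mem_filter] at hj
      obtain ⟨hj1, hj2⟩ := hj
      rw [mem_union, mem_union, mem_union, mem_singleton]
      by_cases hji : j = i
      · exact Or.inl (Or.inl (Or.inl hji))
      by_cases hm : Mixp M k g (π j) (π (j + 1))
      · exact Or.inl (Or.inl (Or.inr (mem_filter.2 ⟨hj1, hm⟩)))
      by_cases hg : A (π i) (π j)
      · right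
        obtain ⟨hTj, hkj, hkj1⟩ : Allowed M τ (π j) (π (j + 1)) ∧ k < π j ∧ k < π (j + 1) := by
          rcases hTπ j (by simpa using hj1) with h | h
          · exact absurd (Or.inr h) hm
          · exact h
        have hτα : π (j + 1) % M = τ α := by
          have hm' : M ∣ π j ↔ M ∣ π (j + 1) := not_not.1 fun h => hm (Or.inl h)
          rcases hTj with h | h | h
          · rw [h, hj2]
          · have h4 := hm'.1 h
            rw [hdvd] at h h4
            rw [h4, ← hj2, h, hτ0]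
          · have h4 := hm'.2 h
            rw [hdvd] at h h4
            rw [h, ← hj2, h4, hτ0]
        rw [hI3, mem_filter]
        refine ⟨hj1, hτα, fun hg' => ?_⟩
        have := hcon j (by simpa using hj1) hji hj2 hτα hg hg' hkj
        omega
      · exact Or.inl (Or.inr (mem_filter.2 ⟨hj1, hj2, hg⟩))
    have hle := card_le_card hsub
    have h3 := card_union_le (({i} ∪ I1) ∪ I2) I3
    have h4 := card_union_le ({i} ∪ I1) I2
    have h5 := card_union_le {i} I1
    rw [card_singleton] at h5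
    omega
  by_cases hy : M ∣ π (i + 1)
  · -- the class is `τ (π i % M)`
    obtain ⟨j, hj, hji, h1, h2, h3, h4, hkj, hkj1⟩ := key (τ (π i % M)) (hτlt _) (Or.inl rfl)
      (Or.inr (Or.inl hy))
    rw [hinv _ (hmod _)] at h2
    refine ⟨j, hj, hji, Or.inr ⟨Or.inl h1, hki, hkj⟩, h3, Or.inr ⟨Or.inr (Or.inl hy), hki1, hkj1⟩,
      h4, Or.inr ⟨?_, ?_⟩⟩
    · rintro (hm | hm)
      · apply hm
        rw [hdvd, hdvd, h1]
        constructor
        · intro h
          rw [h, hτ0]
        · intro h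
          by_contra hne
          exact hτne _ (hmod _) hne h
      · exact not_prot hki hkj hm
    · rintro (hm | hm)
      · left
        intro hm'
        apply hm
        rw [hdvd (π (j + 1)), h2, ← hdvd]
        exact ⟨fun _ => hm'.2 hy, fun _ => hy⟩
      · exact absurd hm (not_prot hki1 hkj1)
  · -- the class is that of `π (i + 1)`
    have hT := hTi
    have h1 : π (i + 1) % M = τ (π i % M) ∨ M ∣ π i ∨ π (i + 1) % M = 0 := by
      rcases hT with h | h | h
      · exact Or.inl h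
      · exact Or.inr (Or.inl h)
      · exact absurd h hy
    obtain ⟨j, hj, hji, h1', h2, h3, h4, hkj, hkj1⟩ :=
      key (π (i + 1) % M) (hmod _) h1 (Or.inl rfl)
    have hy0 : π (i + 1) % M ≠ 0 := fun h => hy ((hdvd _).2 h)
    refine ⟨j, hj, hji, Or.inr ⟨?_, hki, hkj⟩, h3, Or.inr ⟨Or.inl h2, hki1, hkj1⟩, h4,
      Or.inl ⟨?_, ?_⟩⟩
    · rcases h1 with h | h | h
      · left
        rw [h1', h]
      · exact Or.inr (Or.inl h)
      · exact absurd h hy0
    · rintro (hm | hm)
      · left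
        intro hm'
        apply hm
        rw [hdvd (π j), h1', ← hdvd]
        exact hm'
      · exact absurd hm (not_prot hki hkj)
    · rintro (hm | hm)
      · apply hm
        rw [hdvd, hdvd, h2]
        exact ⟨fun h => absurd h hy0, fun h => absurd h (hτne _ (hmod _) hy0)⟩
      · exact not_prot hki1 hkj1 hm

end Pool.Agent.H34.CS
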