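import Pool.Agent.H34.CQ.Init

/-!
Circular orders with prescribed neighbours of the small entries and congruence conditions.
-/

set_option autoImplicit false

namespace Pool.Agent.H34.CS

open Finset Pool.Agent.H34.CQ

/-- a prescribed pair: a small entry `j / 2 + 1` and its partner `g j` -/
def Prot (k : ℕ) (g : ℕ → ℕ) (x y : ℕ) : Prop :=
  ∃ j < 2 * k, (x = j / 2 + 1 ∧ y = g j) ∨ (y = j / 2 + 1 ∧ x = g j)

/-- allowed pairs: prescribed, or allowed by the residue classes and without small entries -/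
def Tp (M : ℕ) (τ : ℕ → ℕ) (k : ℕ) (g : ℕ → ℕ) (x y : ℕ) : Prop :=
  Prot k g x y ∨ (Allowed M τ x y ∧ k < x ∧ k < y)

/-- pairs that are not used for exchanges -/
def Mixp (M k : ℕ) (g : ℕ → ℕ) (x y : ℕ) : Prop := Mixed M x y ∨ Prot k g x y

end Pool.Agent.H34.CS
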